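import Pool.Agent.R231.KC.Values

/-!
# The constants `c_k` of MP_5da84a_co

`c_k = 1 + rho (k-1)` for every `k ≥ 1`, where `rho m` is the largest radius of a disc that can be
covered by the concentric unit disc and `m` further unit discs. The infimum is finite and never
attained. Explicit values for `k ≤ 10`, and `c_k` has order `√k`.
-/

namespace Pool.Agent.Results.MP_5da84a_co.EdgeConnectivityConstants

open Pool.Agent.R231.KC

/-- `c_k` for sensing radius `r`. -/
noncomputable def cConst (r : ℝ) (k : ℕ) : ℝ := sInf (good r k)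

theorem result :
    -- (1) the set of admissible constants is the open half line `(1 + rho (k-1), ∞)`
    (∀ r : ℝ, 0 < r → ∀ k : ℕ, 1 ≤ k → good r k = Set.Ioi (1 + rho (k - 1))) ∧
    -- (2) value of `c_k`; the infimum is never attained
    (∀ r : ℝ, 0 < r → ∀ k : ℕ, 1 ≤ k →
      cConst r k = 1 + rho (k - 1) ∧ cConst r k ∉ good r k) ∧
    -- (3) `rho m` is a maximum
    (∀ m : ℕ, IsGreatest {R | Ring m R} (rho m)) ∧
    -- (4) finiteness and order of growth
    (∀ r : ℝ, 0 < r → ∀ k : ℕ, 1 ≤ k →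
      1 + (Nat.sqrt (k - 1) : ℝ) / Real.sqrt 2 ≤ cConst r k ∧ cConst r k ≤ 1 + Real.sqrt k) ∧
    -- (5) explicit values
    (∀ r : ℝ, 0 < r → cConst r 2 = 2 ∧ cConst r 3 = 2 ∧ cConst r 4 = 1 + 2 / Real.sqrt 3 ∧
      cConst r 5 = 1 + Real.sqrt 2 ∧ cConst r 6 = 1 + 1 / Real.sin (Real.pi / 5) ∧
      cConst r 7 = 3 ∧ cConst r 8 = 2 + 2 * Real.cos (2 * Real.pi / 7) ∧
      cConst r 9 = 2 + Real.sqrt 2 ∧ cConst r 10 = 2 + 2 * Real.cos (2 * Real.pi / 9)) ∧
    -- (6) further lower and upper bounds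
    (∀ r : ℝ, 0 < r → ∀ k : ℕ, 3 ≤ k →
      2 + 2 * Real.cos (2 * Real.pi / ((k - 1 : ℕ) : ℝ)) ≤ cConst r k ∧
      cConst r k ≤ 1 + 1 / Real.sin (Real.pi / ((k - 1 : ℕ) : ℝ))) := by
  have hset : ∀ r : ℝ, 0 < r → ∀ k : ℕ, 1 ≤ k → good r k = Set.Ioi (1 + rho (k - 1)) := by
    intro r hr k hk
    obtain ⟨m, rfl⟩ : ∃ m, k = m + 1 := ⟨k - 1, by omega⟩
    ext c
    rw [Nat.add_sub_cancel]
    exact good_iff hr m c
  have hval : ∀ r : ℝ, 0 < r → ∀ k : ℕ, 1 ≤ k → cConst r k = 1 + rho (k - 1) := by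
    intro r hr k hk
    unfold cConst
    rw [hset r hr k hk, csInf_Ioi]
  refine ⟨hset, ?_, ?_, ?_, ?_, ?_⟩
  · intro r hr k hk
    refine ⟨hval r hr k hk, ?_⟩
    rw [hval r hr k hk, hset r hr k hk]
    exact fun h => absurd (Set.mem_Ioi.1 h) (lt_irrefl _)
  · intro m
    exact ⟨ring_rho m, fun R hR => le_csSup (bddAbove_ring m) hR⟩
  · intro r hr k hk
    rw [hval r hr k hk]
    refine ⟨by linarith [rho_ge_grid (k - 1)], ?_⟩
    have h1 := rho_le (k - 1)
    have h2 : ((k - 1 : ℕ) : ℝ) + 1 = k := by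
      rw [Nat.cast_sub hk]; simp
    rw [h2] at h1
    linarith
  · intro r hr
    refine ⟨?_, ?_, ?_, ?_, ?_, ?_, ?_, ?_, ?_⟩
    · rw [hval r hr 2 (by norm_num)]
      norm_num
      rw [rho_one]; norm_num
    · rw [hval r hr 3 (by norm_num)]
      norm_num
      rw [rho_two]; norm_num
    · rw [hval r hr 4 (by norm_num)]
      have h := rho_eq (m := 3) (by norm_num) (by norm_num)
      norm_num at h ⊢
      rw [h]
    · rw [hval r hr 5 (by norm_num)]
      have h := rho_eq (m := 4) (by norm_num) (by norm_num)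
      have h2 : (1 : ℝ) / Real.sin (Real.pi / (4 : ℕ)) = Real.sqrt 2 := by
        have h3 : Real.sin (Real.pi / (4 : ℕ)) = Real.sqrt 2 / 2 := by
          norm_num
        rw [h3]
        have h4 : Real.sqrt 2 * Real.sqrt 2 = 2 := Real.mul_self_sqrt (by norm_num)
        have h5 : 0 < Real.sqrt 2 := Real.sqrt_pos.2 (by norm_num)
        field_simp
        linarith
      rw [h2] at h
      norm_num
      exact h
    · rw [hval r hr 6 (by norm_num)]
      have h := rho_eq (m := 5) (by norm_num) (by norm_num)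
      norm_num at h ⊢
      exact h
    · rw [hval r hr 7 (by norm_num)]
      have h := rho_eq (m := 6) (by norm_num) (by norm_num)
      norm_num at h ⊢
      rw [h]; norm_num
    · rw [hval r hr 8 (by norm_num)]
      have h := rho_seven
      have e : 2 * (Real.pi / 7) = 2 * Real.pi / 7 := by ring
      rw [e] at h
      norm_num
      rw [h]; ring
    · rw [hval r hr 9 (by norm_num)]
      have h := rho_eight
      norm_num
      rw [h]; ring
    · rw [hval r hr 10 (by norm_num)]
      have h := rho_nine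
      have e : 2 * (Real.pi / 9) = 2 * Real.pi / 9 := by ring
      rw [e] at h
      norm_num
      rw [h]; ring
  · intro r hr k hk
    rw [hval r hr k (by omega)]
    have h1 := rho_ge_cos (m := k - 1) (by omega)
    have h2 := rho_le_sin (m := k - 1) (by omega)
    have e : 2 * (Real.pi / ((k - 1 : ℕ) : ℝ)) = 2 * Real.pi / ((k - 1 : ℕ) : ℝ) := by ring
    rw [e] at h1
    exact ⟨by linarith, by linarith⟩

end Pool.Agent.Results.MP_5da84a_co.EdgeConnectivityConstants
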